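import Pool.Agent.N709.UM.Stm
import Pool.Agent.R508.DACBase

/-!
# Minimality forces convergence (leaf TOP of project UM of helper709)
-/

set_option autoImplicit false

open Filter Topology

universe u

namespace Pool.Agent.N187.UMTOP

open Pool.Agent.N709.UM

theorem PN.nonneg {G : Type u} [Group G] {N : G → ℝ} (h : PN N) (g : G) : 0 ≤ N g := by
  have h1 := h.mul g g⁻¹
  rw [mul_inv_cancel, h.one, h.inv] at h1
  linarith

/-- the family of pseudonorms -/
def Fam {G : Type u} [Group G] [TopologicalSpace G] (y : ℕ → G) (N : G → ℝ) : Prop :=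
  PN N ∧ Continuous N ∧ Tendsto (fun k => N (y k)) atTop (𝓝 0)

/-- the filter of the neighbourhoods of the identity -/
def FF {G : Type u} [Group G] [TopologicalSpace G] (y : ℕ → G) : Filter G :=
  ⨅ (N : G → ℝ) (_ : Fam y N), comap N (𝓝 0)

theorem tendsto_FF {G : Type u} [Group G] [TopologicalSpace G] {y : ℕ → G} {α : Type*}
    {l : Filter α} {f : α → G} (h : ∀ N : G → ℝ, Fam y N → Tendsto (fun a => N (f a)) l (𝓝 0)) :
    Tendsto f l (FF y) :=
  tendsto_iInf.2 fun N => tendsto_iInf.2 fun hN => tendsto_comap_iff.2 (h N hN)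

theorem FF_tendsto {G : Type u} [Group G] [TopologicalSpace G] {y : ℕ → G} {N : G → ℝ}
    (h : Fam y N) : Tendsto N (FF y) (𝓝 0) :=
  tendsto_iff_comap.2 (iInf₂_le N h)

theorem squeeze {α : Type*} {l : Filter α} {f g : α → ℝ} (h0 : ∀ a, 0 ≤ f a)
    (h : ∀ a, f a ≤ g a) (hg : Tendsto g l (𝓝 0)) : Tendsto f l (𝓝 0) :=
  tendsto_of_tendsto_of_tendsto_of_le_of_le tendsto_const_nhds hg h0 h

theorem fam_conj {G : Type u} [Group G] [TopologicalSpace G] [IsTopologicalGroup G] {y : ℕ → G}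
    (hc : ∀ g, Tendsto (fun k => g * y k * g⁻¹ * (y k)⁻¹) atTop (𝓝 1)) {N : G → ℝ}
    (h : Fam y N) (g : G) : Fam y (fun x => N (g * x * g⁻¹)) := by
  obtain ⟨hN, hcont, ht⟩ := h
  refine ⟨⟨?_, ?_, ?_⟩, ?_, ?_⟩
  · simpa using hN.one
  · intro x
    have e : g * x⁻¹ * g⁻¹ = (g * x * g⁻¹)⁻¹ := by group
    simp only [e]
    exact hN.inv _
  · intro x x'
    have e : g * (x * x') * g⁻¹ = (g * x * g⁻¹) * (g * x' * g⁻¹) := by group
    simp only [e]
    exact hN.mul _ _
  · exact hcont.comp (by fun_prop)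
  · have h1 : Tendsto (fun k => N (g * y k * g⁻¹ * (y k)⁻¹) + N (y k)) atTop (𝓝 0) := by
      have h2 : Tendsto (fun k => N (g * y k * g⁻¹ * (y k)⁻¹)) atTop (𝓝 (N 1)) :=
        (hcont.tendsto 1).comp (hc g)
      have h3 := h2.add ht
      simpa [hN.one] using h3
    refine squeeze (fun k => PN.nonneg hN _) (fun k => ?_) h1
    have h4 := hN.mul (g * y k * g⁻¹ * (y k)⁻¹) (y k)
    have e : g * y k * g⁻¹ * (y k)⁻¹ * y k = g * y k * g⁻¹ := by group
    rwa [e] at h4

theorem top : Pool.Agent.N709.UM.Top.{u} := by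
  intro G _ t htg hmin y hc hsep
  have k1 : pure (1 : G) ≤ FF y := by
    have h : Tendsto (fun _ : Unit => (1 : G)) (pure ()) (FF y) := by
      refine tendsto_FF fun N hN => ?_
      rw [hN.1.one]
      exact tendsto_const_nhds
    simpa [Tendsto] using h
  have k2 : Tendsto (fun p : G × G => p.1 * p.2) (FF y ×ˢ FF y) (FF y) := by
    refine tendsto_FF fun N hN => ?_
    have h1 : Tendsto (fun p : G × G => N p.1 + N p.2) (FF y ×ˢ FF y) (𝓝 0) := by
      have h2 : Tendsto (fun p : G × G => N p.1) (FF y ×ˢ FF y) (𝓝 0) :=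
        (FF_tendsto hN).comp tendsto_fst
      have h3 : Tendsto (fun p : G × G => N p.2) (FF y ×ˢ FF y) (𝓝 0) :=
        (FF_tendsto hN).comp tendsto_snd
      simpa using h2.add h3
    exact squeeze (fun p => PN.nonneg hN.1 _) (fun p => hN.1.mul _ _) h1
  have k3 : Tendsto (fun x : G => x⁻¹) (FF y) (FF y) := by
    refine tendsto_FF fun N hN => ?_
    simp only [hN.1.inv]
    exact FF_tendsto hN
  have k4 : ∀ g : G, Tendsto (fun x : G => g * x * g⁻¹) (FF y) (FF y) := by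
    intro g
    refine tendsto_FF fun N hN => ?_
    exact FF_tendsto (fam_conj hc hN g)
  have k5 : 𝓝 (1 : G) ≤ FF y := by
    have h : Tendsto (fun x : G => x) (𝓝 (1 : G)) (FF y) := by
      refine tendsto_FF fun N hN => ?_
      have h1 := hN.2.1.tendsto (1 : G)
      rwa [hN.1.one] at h1
    simpa [Tendsto] using h
  have k6 : ∀ z : G, z ≠ 1 → ∃ U ∈ FF y, z ∉ U := by
    intro z hz
    obtain ⟨N, hN, hcont, ht, hNz⟩ := hsep z hz
    refine ⟨{x | N x < N z}, ?_, ?_⟩
    · exact (FF_tendsto ⟨hN, hcont, ht⟩) (Iio_mem_nhds hNz)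
    · simp
  have k7 : Tendsto y atTop (FF y) := tendsto_FF fun N hN => hN.2.2
  obtain ⟨F, hF⟩ : ∃ F : Filter G, F = FF y := ⟨_, rfl⟩
  rw [← hF] at k1 k2 k3 k4 k5 k6 k7
  clear hF hsep hc
  obtain ⟨s, hs, hs1⟩ := Pool.Agent.R508.DAC.exists_group_topology F k1 k2 k3 k4
  have hts : t ≤ s := Pool.Agent.R508.DAC.le_of_nhds_one_le htg hs (by rw [hs1]; exact k5)
  have hT2 : @T2Space G s := by
    refine @IsTopologicalGroup.t2Space_of_one_sep G s _ hs ?_
    intro z hz
    obtain ⟨U, hU, hzU⟩ := k6 z hz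
    exact ⟨U, by rw [hs1]; exact hU, hzU⟩
  have hst := hmin s hs hT2 hts
  have h1 : @nhds G t 1 = F := by rw [← hs1, hst]
  rw [h1]
  exact k7

end Pool.Agent.N187.UMTOP
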